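import Pool.Agent.Helper240.ZU.A4
import Pool.Agent.Helper240.ZU.D
import Pool.Agent.Helper240.ZU.E1b
import Pool.Agent.H370R2.Local
import Pool.Agent.H370R2.DirGood
import Pool.Agent.H370R2.PC2

set_option autoImplicit false

/-! The zeta function is close to a fixed Dirichlet polynomial on compact subsets of the strip `1/2 < Re z < 1`, for most real
shifts and for most shifts by ordinates of zeros. -/

namespace Pool.Agent.V8H36.UZ

open Complex Filter Topology MeasureTheory Set ZU H370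

noncomputable section

/-- the error -/
def er (N : ℕ) (s : ℂ) : ℂ := riemannZeta s - DN N s

lemma DN_diff (N : ℕ) : Differentiable ℂ (DN N) := by
  unfold DN
  refine Differentiable.fun_sum fun n hn => ?_
  rw [Finset.mem_Icc] at hn
  intro s
  refine DifferentiableAt.const_cpow (by fun_prop) (Or.inl ?_)
  exact_mod_cast (by omega : n ≠ 0)

lemma er_diff (N : ℕ) {s : ℂ} (hs : s.re < 1) : DifferentiableAt ℂ (er N) s := by
  refine (differentiableAt_riemannZeta ?_).sub (DN_diff N s)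
  intro h
  rw [h] at hs
  simp at hs

/-- a compact subset of the strip lies in a rectangle -/
lemma exists_rect {K : Set ℂ} (hK : IsCompact K) (hs : ∀ z ∈ K, 1 / 2 < z.re ∧ z.re < 1) :
    ∃ a b B : ℝ, 1 / 2 < a ∧ a ≤ b ∧ b < 1 ∧ 0 < B ∧ K ⊆ rect a b B := by
  rcases K.eq_empty_or_nonempty with h | h
  · exact ⟨3 / 4, 3 / 4, 1, by norm_num, le_rfl, by norm_num, by norm_num, by rw [h]; exact empty_subset _⟩
  obtain ⟨z1, hz1, h1⟩ := hK.exists_isMinOn h Complex.continuous_re.continuousOn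
  obtain ⟨z2, hz2, h2⟩ := hK.exists_isMaxOn h Complex.continuous_re.continuousOn
  obtain ⟨R, hR⟩ := hK.isBounded.exists_norm_le
  refine ⟨z1.re, z2.re, |R| + 1, (hs z1 hz1).1, h1 hz2, (hs z2 hz2).2, by positivity, fun z hz => ⟨h1 hz, h2 hz, ?_⟩⟩
  have := Complex.abs_im_le_norm z
  have h3 := hR z hz
  have h4 := le_abs_self R
  linarith

/-- the mean square of the error over a rectangle -/
def Hh (N : ℕ) (a b B t : ℝ) : ℝ := ∫ w in rect a b B, ‖er N (w + t * I)‖ ^ 2

lemma Hh_nonneg (N : ℕ) (a b B t : ℝ) : 0 ≤ Hh N a b B t := integral_nonneg fun w => by positivity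

lemma er_contOn (N : ℕ) {a b : ℝ} (hb : b < 1) : ContinuousOn (er N) {z : ℂ | a ≤ z.re ∧ z.re ≤ b} := by
  intro z hz
  exact (er_diff N (lt_of_le_of_lt hz.2 hb)).continuousAt.continuousWithinAt

/-- the rectangles and the two bounds -/
theorem core {K : Set ℂ} (hK : IsCompact K) (hs : ∀ z ∈ K, 1 / 2 < z.re ∧ z.re < 1) :
    ∃ a b B C : ℝ, 0 < C ∧
      (∀ (N : ℕ), Continuous (Hh N a b B)) ∧
      (∀ (N : ℕ) (t u : ℝ), |t - u| ≤ 1 → ∀ z ∈ K, ‖er N (z + t * I)‖ ^ 2 ≤ C * Hh N a b B u) ∧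
      ∀ ε : ℝ, 0 < ε → ∃ N0 : ℕ, ∀ N ≥ N0, ∀ᶠ T : ℝ in atTop, ∫ t in (0:ℝ)..T, Hh N a b B t ≤ ε * T := by
  obtain ⟨a, b, B, ha, hab, hb, hB, hKr⟩ := exists_rect hK hs
  set a' : ℝ := (1 / 2 + a) / 2 with ha'
  set b' : ℝ := (b + 1) / 2 with hb'
  have haa : a' < a := by rw [ha']; linarith
  have ha2 : 1 / 2 < a' := by rw [ha']; linarith
  have hbb : b < b' := by rw [hb']; linarith
  have hb2 : b' < 1 := by rw [hb']; linarith
  obtain ⟨C, hC, hsup⟩ := sup_le_area a b a' b' (B + 1) (B + 2) haa hab hbb (by linarith) (by linarith)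
  have hab' : a' ≤ b' := by linarith
  have hvol : 0 < (b' - a') * (2 * (B + 2)) := mul_pos (by linarith) (by linarith)
  refine ⟨a', b', B + 2, C, hC, ?_, ?_, ?_⟩
  · intro N
    have := (fubini_bound a' b' (B + 2) hab' (by linarith) (er N) (er_contOn N hb2) (fun _ => 1) continuous_const
      0 le_rfl 0 (fun s _ => by simp)).1
    exact this
  · intro N t u htu z hz
    have hU : IsOpen {w : ℂ | w.re < 1} := isOpen_lt Complex.continuous_re continuous_const
    have h := hsup (fun w => er N (w + u * I)) {w : ℂ | w.re < 1} hU (fun w hw => lt_of_le_of_lt hw.2.1 hb2) ?_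
      (z + (t - u : ℝ) * I) ?_
    · have e : (z + ((t - u : ℝ) : ℂ) * I + u * I) = z + t * I := by push_cast; ring
      simp only [e] at h
      exact h
    · intro w hw
      refine DifferentiableAt.differentiableWithinAt ?_
      have hw1 : (w + u * I).re < 1 := by simpa using hw
      exact DifferentiableAt.comp (g := er N) (f := fun w : ℂ => w + u * I) w (er_diff N hw1) (by fun_prop)
    · obtain ⟨h1, h2, h3⟩ := hKr hz
      have e1 : (z + ((t - u : ℝ) : ℂ) * I).re = z.re := by simp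
      have e2 : (z + ((t - u : ℝ) : ℂ) * I).im = z.im + (t - u) := by simp
      refine ⟨by rw [e1]; exact h1, by rw [e1]; exact h2, ?_⟩
      rw [e2]
      exact (abs_add_le _ _).trans (by linarith)
  · intro ε hε
    obtain ⟨N0, hN0⟩ := zeta_meansq a' b' ha2 hab' hb2 (B + 2) (by linarith) (ε / ((b' - a') * (2 * (B + 2))))
      (by positivity)
    refine ⟨N0, fun N hN => ?_⟩
    obtain ⟨T0, hT0, h⟩ := hN0 N hN
    filter_upwards [eventually_ge_atTop T0] with T hT
    have hT1 : 0 < T := lt_of_lt_of_le hT0 hT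
    have hf := (fubini_bound a' b' (B + 2) hab' (by linarith) (er N) (er_contOn N hb2) (fun _ => 1) continuous_const
      T hT1.le (ε / ((b' - a') * (2 * (B + 2))) * T) ?_).2
    · simp only [one_mul] at hf
      refine hf.trans (le_of_eq ?_)
      have hne : (b' - a') ≠ 0 := by
        have : 0 < b' - a' := by linarith
        exact this.ne'
      field_simp
    · intro s hs'
      simp only [one_mul]
      obtain ⟨h1, h2, h3⟩ := hs'
      have h4 := h T hT s.re ⟨h1, h2⟩
      rw [abs_le] at h3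
      have hcont : Continuous fun t : ℝ => ‖er N ((s.re : ℂ) + t * I)‖ ^ 2 := by
        refine Continuous.pow (Continuous.norm ?_) 2
        rw [continuous_iff_continuousAt]
        intro t
        have h5 : ((s.re : ℂ) + t * I).re < 1 := by simp; linarith
        exact ContinuousAt.comp (f := fun t : ℝ => (s.re : ℂ) + t * I) (g := er N) (er_diff N h5).continuousAt
          (by fun_prop)
      calc ∫ t in (0:ℝ)..T, ‖er N (s + t * I)‖ ^ 2
          = ∫ t in (0:ℝ)..T, (fun v : ℝ => ‖er N ((s.re : ℂ) + v * I)‖ ^ 2) (t + s.im) := by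
            refine intervalIntegral.integral_congr fun t _ => ?_
            simp only
            congr 3
            apply Complex.ext <;> simp [add_comm]
        _ = ∫ v in (0 + s.im)..(T + s.im), ‖er N ((s.re : ℂ) + v * I)‖ ^ 2 := by
            rw [intervalIntegral.integral_comp_add_right (fun v : ℝ => ‖er N ((s.re : ℂ) + v * I)‖ ^ 2)]
        _ ≤ ∫ v in (-(B + 2))..(T + (B + 2)), ‖er N ((s.re : ℂ) + v * I)‖ ^ 2 := by
            refine intervalIntegral.integral_mono_interval (by linarith) (by linarith) (by linarith) ?_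
              (hcont.intervalIntegrable _ _)
            exact Eventually.of_forall fun v => by positivity
        _ ≤ _ := h4

/-- few real shifts are bad -/
theorem bad_real {K : Set ℂ} (hK : IsCompact K) (hs : ∀ z ∈ K, 1 / 2 < z.re ∧ z.re < 1) {κ ε : ℝ} (hκ : 0 < κ)
    (hε : 0 < ε) : ∃ N0 : ℕ, ∀ N ≥ N0, ∀ᶠ T : ℝ in atTop, ∃ E : Set ℝ, MeasurableSet E ∧ E ⊆ Icc 0 T ∧
      volume.real E ≤ ε * T ∧ ∀ t ∈ Icc 0 T, t ∉ E → ∀ z ∈ K, ‖er N (z + t * I)‖ < κ := by
  obtain ⟨a, b, B, C, hC, hc, h1, h2⟩ := core hK hs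
  obtain ⟨N0, hN0⟩ := h2 (ε * κ ^ 2 / C) (by positivity)
  refine ⟨N0, fun N hN => ?_⟩
  filter_upwards [hN0 N hN, eventually_ge_atTop 1] with T hT hT1
  have hE : MeasurableSet (Icc 0 T ∩ {t : ℝ | κ ^ 2 / C ≤ Hh N a b B t}) :=
    measurableSet_Icc.inter (measurableSet_le measurable_const (hc N).measurable)
  refine ⟨Icc 0 T ∩ {t : ℝ | κ ^ 2 / C ≤ Hh N a b B t}, hE, inter_subset_left, ?_, ?_⟩
  · have hfin : volume (Icc 0 T ∩ {t : ℝ | κ ^ 2 / C ≤ Hh N a b B t}) ≠ ⊤ :=
      ne_top_of_le_ne_top (b := volume (Icc 0 T)) (by simp) (measure_mono inter_subset_left)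
    have hint : IntegrableOn (Hh N a b B) (Icc 0 T) := (hc N).continuousOn.integrableOn_compact isCompact_Icc
    have h3 : κ ^ 2 / C * volume.real (Icc 0 T ∩ {t : ℝ | κ ^ 2 / C ≤ Hh N a b B t}) ≤ ε * κ ^ 2 / C * T := by
      calc κ ^ 2 / C * volume.real (Icc 0 T ∩ {t : ℝ | κ ^ 2 / C ≤ Hh N a b B t})
          = ∫ t in Icc 0 T ∩ {t : ℝ | κ ^ 2 / C ≤ Hh N a b B t}, κ ^ 2 / C := by
            rw [setIntegral_const, smul_eq_mul, mul_comm]
        _ ≤ ∫ t in Icc 0 T ∩ {t : ℝ | κ ^ 2 / C ≤ Hh N a b B t}, Hh N a b B t := by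
            refine setIntegral_mono_on (integrableOn_const hfin) (hint.mono_set inter_subset_left) hE ?_
            rintro t ⟨_, h⟩
            exact h
        _ ≤ ∫ t in Icc 0 T, Hh N a b B t := by
            refine setIntegral_mono_set hint ?_ (LE.le.eventuallyLE inter_subset_left)
            exact Eventually.of_forall fun t => Hh_nonneg N a b B t
        _ = ∫ t in (0:ℝ)..T, Hh N a b B t := by
            rw [integral_Icc_eq_integral_Ioc, ← intervalIntegral.integral_of_le (by linarith)]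
        _ ≤ _ := hT
    have h4 : 0 < κ ^ 2 / C := by positivity
    have h5 : κ ^ 2 / C * volume.real (Icc 0 T ∩ {t : ℝ | κ ^ 2 / C ≤ Hh N a b B t}) ≤ κ ^ 2 / C * (ε * T) :=
      h3.trans (le_of_eq (by ring))
    exact le_of_mul_le_mul_left h5 h4
  · intro t ht htE z hz
    have h3 : Hh N a b B t < κ ^ 2 / C := by
      by_contra h
      exact htE ⟨ht, not_lt.mp h⟩
    have h4 := h1 N t t (by simp) z hz
    have h5 : ‖er N (z + t * I)‖ ^ 2 < κ ^ 2 := by
      calc _ ≤ C * Hh N a b B t := h4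
        _ < C * (κ ^ 2 / C) := by gcongr
        _ = κ ^ 2 := by field_simp
    exact lt_of_pow_lt_pow_left₀ 2 hκ.le h5

open Classical in
/-- few zeros are bad -/
theorem bad_zeros {K : Set ℂ} (hK : IsCompact K) (hs : ∀ z ∈ K, 1 / 2 < z.re ∧ z.re < 1) {κ ε : ℝ} (hκ : 0 < κ)
    (hε : 0 < ε) : ∃ N0 : ℕ, ∀ N ≥ N0, ∀ᶠ T : ℝ in atTop,
      (((Zf riemannZeta T (2 * T)).filter (fun s => ∃ z ∈ K, κ ≤ ‖er N (z + s.im * I)‖)).card : ℝ) ≤
        ε * (T * Real.log T) := by
  obtain ⟨a, b, B, C, hC, hc, h1, h2⟩ := core hK hs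
  obtain ⟨C0, hC0, hz⟩ := zcount good_zeta
  obtain ⟨N0, hN0⟩ := h2 (ε * κ ^ 2 / (6 * C * C0)) (by positivity)
  refine ⟨N0, fun N hN => ?_⟩
  have h3T : Tendsto (fun T : ℝ => 3 * T) atTop atTop := tendsto_id.const_mul_atTop (by norm_num)
  filter_upwards [h3T.eventually (hN0 N hN), eventually_ge_atTop 10] with T hT hT1
  set S := (Zf riemannZeta T (2 * T)).filter (fun s => ∃ z ∈ K, κ ≤ ‖er N (z + s.im * I)‖) with hS
  have hlog : 1 ≤ Real.log T := by
    rw [Real.le_log_iff_exp_le (by linarith)]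
    have := Real.exp_one_lt_d9
    linarith
  have hmem : ∀ s ∈ S, T < s.im ∧ s.im ≤ 2 * T := by
    intro s hs'
    rw [hS, Finset.mem_filter, mem_Zf good_zeta (by linarith)] at hs'
    exact ⟨hs'.1.2.2.1, hs'.1.2.2.2.1⟩
  set J := S.image (fun s => ⌊s.im⌋₊) with hJ
  -- the fibres
  have hfib : ∀ k ∈ J, ((S.filter (fun s => ⌊s.im⌋₊ = k)).card : ℝ) ≤ C0 * (2 * Real.log T) := by
    intro k hk
    obtain ⟨s0, hs0, hk0⟩ := Finset.mem_image.mp hk
    obtain ⟨g1, g2⟩ := hmem s0 hs0
    have hk1 : (k : ℝ) ≤ s0.im := by rw [← hk0]; exact Nat.floor_le (by linarith)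
    have hk2 : s0.im < k + 1 := by rw [← hk0]; exact Nat.lt_floor_add_one _
    have hk3 : (3:ℝ) ≤ k := by linarith
    have hcard : ((S.filter (fun s => ⌊s.im⌋₊ = k)).card : ℝ) ≤ (NN riemannZeta ((k : ℝ) - 1) (k + 1) : ℝ) := by
      have hNN : NN riemannZeta ((k : ℝ) - 1) (k + 1) = ∑ s ∈ Zf riemannZeta ((k : ℝ) - 1) (k + 1), mult riemannZeta s := by
        unfold NN
        rw [finsum_Zf good_zeta (by linarith)]
      rw [hNN]
      have hsub : S.filter (fun s => ⌊s.im⌋₊ = k) ⊆ Zf riemannZeta ((k : ℝ) - 1) (k + 1) := by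
        intro s hs'
        rw [Finset.mem_filter] at hs'
        obtain ⟨hs1, hs2⟩ := hs'
        obtain ⟨g3, g4⟩ := hmem s hs1
        rw [hS, Finset.mem_filter, mem_Zf good_zeta (by linarith)] at hs1
        rw [mem_Zf good_zeta (by linarith)]
        obtain ⟨⟨p1, p2, p3, p4, p5⟩, -⟩ := hs1
        have g5 : (k : ℝ) ≤ s.im := by rw [← hs2]; exact Nat.floor_le (by linarith)
        have g6 : s.im < k + 1 := by rw [← hs2]; exact Nat.lt_floor_add_one _
        exact ⟨p1, p2, by linarith, by linarith, p5⟩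
      have hone : ∀ s ∈ Zf riemannZeta ((k : ℝ) - 1) (k + 1), 1 ≤ mult riemannZeta s := by
        intro s hs'
        rw [mem_Zf good_zeta (by linarith)] at hs'
        exact Loc.mult_pos' good_zeta (by linarith [hs'.2.2.1]) hs'.2.2.2.2
      have h6 : (S.filter (fun s => ⌊s.im⌋₊ = k)).card ≤ ∑ s ∈ Zf riemannZeta ((k : ℝ) - 1) (k + 1), mult riemannZeta s := by
        refine (Finset.card_le_card hsub).trans ?_
        rw [Finset.card_eq_sum_ones]
        exact Finset.sum_le_sum hone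
      exact_mod_cast h6
    refine hcard.trans ((hz k hk3).trans ?_)
    have : Real.log k ≤ 2 * Real.log T := by
      have h5 : (k : ℝ) ≤ T ^ 2 := by nlinarith
      calc Real.log k ≤ Real.log (T ^ 2) := Real.log_le_log (by linarith) h5
        _ = 2 * Real.log T := by rw [Real.log_pow]; push_cast; ring
    gcongr
  have hcard : (S.card : ℝ) ≤ J.card * (C0 * (2 * Real.log T)) := by
    rw [Finset.card_eq_sum_card_image (fun s : ℂ => ⌊s.im⌋₊) S]
    push_cast
    rw [← nsmul_eq_mul]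
    exact Finset.sum_le_card_nsmul _ _ _ hfib
  -- the number of the unit intervals
  have hJn : (J.card : ℝ) * (κ ^ 2 / C) ≤ ε * κ ^ 2 / (6 * C * C0) * (3 * T) := by
    have h4 : ∀ k ∈ J, κ ^ 2 / C ≤ ∫ u in (k : ℝ)..(k + 1 : ℕ), Hh N a b B u := by
      intro k hk
      obtain ⟨s0, hs0, hk0⟩ := Finset.mem_image.mp hk
      obtain ⟨g1, g2⟩ := hmem s0 hs0
      have hk1 : (k : ℝ) ≤ s0.im := by rw [← hk0]; exact Nat.floor_le (by linarith)
      have hk2 : s0.im < k + 1 := by rw [← hk0]; exact Nat.lt_floor_add_one _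
      rw [hS, Finset.mem_filter] at hs0
      obtain ⟨z, hz1, hz2⟩ := hs0.2
      have h5 : ∀ u ∈ Icc (k : ℝ) ((k + 1 : ℕ) : ℝ), κ ^ 2 / C ≤ Hh N a b B u := by
        intro u hu
        push_cast at hu
        have h6 := h1 N s0.im u (by rw [abs_le]; constructor <;> linarith [hu.1, hu.2]) z hz1
        rw [div_le_iff₀ hC]
        calc κ ^ 2 ≤ ‖er N (z + s0.im * I)‖ ^ 2 := by gcongr
          _ ≤ C * Hh N a b B u := h6
          _ = _ := mul_comm _ _
      have h6 := intervalIntegral.integral_mono_on (μ := volume) (a := (k : ℝ)) (b := ((k + 1 : ℕ) : ℝ))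
        (by push_cast; linarith) (f := fun _ => κ ^ 2 / C) (g := Hh N a b B) intervalIntegrable_const
        ((hc N).intervalIntegrable _ _) h5
      rw [intervalIntegral.integral_const, smul_eq_mul] at h6
      push_cast at h6 ⊢
      linarith
    set n := ⌊2 * T⌋₊ + 1 with hn
    have hJs : J ⊆ Finset.range n := by
      intro k hk
      obtain ⟨s0, hs0, hk0⟩ := Finset.mem_image.mp hk
      obtain ⟨g1, g2⟩ := hmem s0 hs0
      rw [Finset.mem_range, hn, ← hk0]
      have := Nat.floor_le_floor g2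
      omega
    have hn2 : (n : ℝ) ≤ 3 * T := by
      rw [hn]; push_cast
      have := Nat.floor_le (show 0 ≤ 2 * T by linarith)
      linarith
    calc (J.card : ℝ) * (κ ^ 2 / C) = ∑ k ∈ J, κ ^ 2 / C := by rw [Finset.sum_const, nsmul_eq_mul]
      _ ≤ ∑ k ∈ J, ∫ u in (k : ℝ)..(k + 1 : ℕ), Hh N a b B u := Finset.sum_le_sum h4
      _ ≤ ∑ k ∈ Finset.range n, ∫ u in (k : ℝ)..(k + 1 : ℕ), Hh N a b B u := by
          refine Finset.sum_le_sum_of_subset_of_nonneg hJs fun k _ _ => ?_
          exact intervalIntegral.integral_nonneg (by push_cast; linarith) fun u _ => Hh_nonneg N a b B u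
      _ = ∫ u in ((0:ℕ) : ℝ)..(n : ℝ), Hh N a b B u :=
          intervalIntegral.sum_integral_adjacent_intervals fun k _ => (hc N).intervalIntegrable _ _
      _ ≤ ∫ u in (0:ℝ)..(3 * T), Hh N a b B u := by
          rw [Nat.cast_zero]
          refine intervalIntegral.integral_mono_interval le_rfl (Nat.cast_nonneg n) hn2 ?_
            ((hc N).intervalIntegrable _ _)
          exact Eventually.of_forall fun u => Hh_nonneg N a b B u
      _ ≤ _ := hT
  have hJn2 : (J.card : ℝ) ≤ ε / (2 * C0) * T := by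
    have h4 : 0 < κ ^ 2 / C := by positivity
    have h5 : (J.card : ℝ) * (κ ^ 2 / C) ≤ (ε / (2 * C0) * T) * (κ ^ 2 / C) := by
      refine hJn.trans (le_of_eq ?_)
      field_simp
      ring
    exact le_of_mul_le_mul_right h5 h4
  calc (S.card : ℝ) ≤ J.card * (C0 * (2 * Real.log T)) := hcard
    _ ≤ (ε / (2 * C0) * T) * (C0 * (2 * Real.log T)) := by gcongr
    _ = ε * (T * Real.log T) := by field_simp

end

end Pool.Agent.V8H36.UZ
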