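import Pool.Agent.V8H36.UZ.Ap
import Pool.Agent.V8H36.UZ.Bad
import Pool.Agent.Q97.UM.Base7
import Pool.Agent.Q97.UM.IsoF
import Pool.Agent.Q97.UM.Rh

set_option autoImplicit false

/-! The isolated simple critical zeros in `(T, 2 T]` whose ordinates are shifts that approximate a given function. -/

namespace Pool.Agent.V8H36.UZ

open Complex Filter Topology MeasureTheory Set ZU H370 Pool.Agent.Q97.UM

noncomputable section

lemma DN_eq (N : ℕ) (z : ℂ) (t : ℝ) :
    DN N (z + t * I) = ∑ i : Fin N, ((i + 1 : ℕ) : ℂ) ^ (-z) * xv N t i := by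
  have h1 : ∀ M : ℕ, DN M (z + t * I) = ∑ i ∈ Finset.range M, ((i + 1 : ℕ) : ℂ) ^ (-z) * nt (i + 1) t := by
    intro M
    induction M with
    | zero => simp [DN]
    | succ M ih =>
      rw [Finset.sum_range_succ, ← ih]
      unfold DN
      rw [Finset.sum_Icc_succ_top (by omega)]
      congr 1
      unfold nt
      have h0 : ((M + 1 : ℕ) : ℂ) ≠ 0 := by exact_mod_cast (by omega : M + 1 ≠ 0)
      rw [← Complex.cpow_add _ _ h0]
      congr 1
      ring
  rw [h1 N, ← Fin.sum_univ_eq_sum_range (fun i => ((i + 1 : ℕ) : ℂ) ^ (-z) * nt (i + 1) t) N]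
  rfl

/-- the vectors for which the Dirichlet polynomial approximates `f` -/
def Cs (N : ℕ) (K : Set ℂ) (f : ℂ → ℂ) (e : ℝ) : Set (Fin N → ℂ) :=
  {x | ∀ z ∈ K, ‖(∑ i : Fin N, ((i + 1 : ℕ) : ℂ) ^ (-z) * x i) - f z‖ ≤ e}

/-- a cut-off function -/
def Ps (N : ℕ) (K : Set ℂ) (f : ℂ → ℂ) (e ρ : ℝ) (x : Fin N → ℂ) : ℝ :=
  max 0 (1 - Metric.infDist x (Cs N K f e) / ρ)

lemma Ps_cont (N : ℕ) (K : Set ℂ) (f : ℂ → ℂ) (e ρ : ℝ) : Continuous (Ps N K f e ρ) := by
  unfold Ps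
  exact continuous_const.max (continuous_const.sub ((Metric.continuous_infDist_pt _).div_const _))

lemma Ps_nonneg (N : ℕ) (K : Set ℂ) (f : ℂ → ℂ) (e ρ : ℝ) (x : Fin N → ℂ) : 0 ≤ Ps N K f e ρ x := le_max_left _ _

lemma Ps_le_one (N : ℕ) (K : Set ℂ) (f : ℂ → ℂ) (e : ℝ) {ρ : ℝ} (hρ : 0 < ρ) (x : Fin N → ℂ) : Ps N K f e ρ x ≤ 1 := by
  unfold Ps
  refine max_le zero_le_one ?_
  have : 0 ≤ Metric.infDist x (Cs N K f e) / ρ := div_nonneg Metric.infDist_nonneg hρ.le
  linarith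

lemma Ps_one {N : ℕ} {K : Set ℂ} {f : ℂ → ℂ} {e ρ : ℝ} {x : Fin N → ℂ} (hx : x ∈ Cs N K f e) : Ps N K f e ρ x = 1 := by
  unfold Ps
  rw [Metric.infDist_zero_of_mem hx]
  simp

lemma Ps_ne {N : ℕ} {K : Set ℂ} {f : ℂ → ℂ} {e ρ : ℝ} (hK : ∀ z ∈ K, 0 < z.re) (hρ : 0 < ρ)
    (hne : (Cs N K f e).Nonempty) {x : Fin N → ℂ} (hx : Ps N K f e ρ x ≠ 0) : x ∈ Cs N K f (e + N * ρ) := by
  have h1 : Metric.infDist x (Cs N K f e) < ρ := by
    by_contra h
    apply hx
    unfold Ps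
    apply max_eq_left
    have : 1 ≤ Metric.infDist x (Cs N K f e) / ρ := by
      rw [le_div_iff₀ hρ, one_mul]; exact not_lt.mp h
    linarith
  obtain ⟨y, hy, hxy⟩ := (Metric.infDist_lt_iff hne).mp h1
  intro z hz
  have h2 : (∑ i : Fin N, ((i + 1 : ℕ) : ℂ) ^ (-z) * x i) - f z =
      ((∑ i : Fin N, ((i + 1 : ℕ) : ℂ) ^ (-z) * y i) - f z) + ∑ i : Fin N, ((i + 1 : ℕ) : ℂ) ^ (-z) * (x i - y i) := by
    have : ∑ i : Fin N, ((i + 1 : ℕ) : ℂ) ^ (-z) * (x i - y i) =
        (∑ i : Fin N, ((i + 1 : ℕ) : ℂ) ^ (-z) * x i) - ∑ i : Fin N, ((i + 1 : ℕ) : ℂ) ^ (-z) * y i := by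
      rw [← Finset.sum_sub_distrib]
      exact Finset.sum_congr rfl fun i _ => by ring
    rw [this]; ring
  rw [h2]
  refine (norm_add_le _ _).trans (add_le_add (hy z hz) ?_)
  refine (norm_sum_le _ _).trans ?_
  have h3 : ∀ i : Fin N, ‖((i + 1 : ℕ) : ℂ) ^ (-z) * (x i - y i)‖ ≤ ρ := by
    intro i
    rw [norm_mul]
    have h4 : ‖((i + 1 : ℕ) : ℂ) ^ (-z)‖ ≤ 1 := by
      rw [Complex.norm_natCast_cpow_of_pos (by omega)]
      exact Real.rpow_le_one_of_one_le_of_nonpos (by push_cast; linarith [Nat.cast_nonneg (α := ℝ) (i : ℕ)])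
        (by rw [Complex.neg_re]; linarith [hK z hz])
    have h5 : ‖x i - y i‖ ≤ ρ := by
      rw [← dist_eq_norm]
      exact (dist_le_pi_dist x y i).trans hxy.le
    calc _ ≤ 1 * ρ := mul_le_mul h4 h5 (norm_nonneg _) zero_le_one
      _ = ρ := one_mul _
  refine (Finset.sum_le_sum fun i _ => h3 i).trans ?_
  rw [Finset.sum_const, Finset.card_univ, Fintype.card_fin, nsmul_eq_mul]

/-- the real shifts that approximate -/
def SR (K : Set ℂ) (f : ℂ → ℂ) (e : ℝ) : Set ℝ := {t : ℝ | ∀ z ∈ K, ‖riemannZeta (z + t * I) - f z‖ ≤ e}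

lemma SR_closed {K : Set ℂ} (hs : ∀ z ∈ K, z.re < 1) (f : ℂ → ℂ) (e : ℝ) : IsClosed (SR K f e) := by
  have : SR K f e = ⋂ z ∈ K, {t : ℝ | ‖riemannZeta (z + t * I) - f z‖ ≤ e} := by
    ext t; simp [SR]
  rw [this]
  refine isClosed_biInter fun z hz => isClosed_le (Continuous.norm (Continuous.sub ?_ continuous_const)) continuous_const
  rw [continuous_iff_continuousAt]
  intro t
  have hne : z + t * I ≠ 1 := by
    intro h
    have h1 := congrArg Complex.re h
    simp at h1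
    linarith [hs z hz]
  exact ContinuousAt.comp (f := fun t : ℝ => z + t * I) (g := riemannZeta) (differentiableAt_riemannZeta hne).continuousAt
    (by fun_prop)

lemma alg {q w V0 V1 X g g' z η1 T L Cc : ℝ} (hq0 : 0 ≤ q) (hq1 : q ≤ 1) (hw0 : 0 ≤ w) (hwL : w ≤ L) (hT : 0 ≤ T)
    (hη0 : 0 ≤ η1) (hη1 : η1 ≤ 1 / 2) (hV10 : 0 ≤ V1) (hV1 : V1 ≤ T) (hV : V0 ≤ V1 + 2 * η1 * T)
    (h1 : (1 - η1) ^ 2 * V1 ≤ (1 + η1) * X) (h2 : q * w * X ≤ (1 + η1) ^ 2 * g + η1 ^ 2 * z) (hg0 : 0 ≤ g)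
    (hgz : g ≤ z) (hz : z ≤ Cc * (T * L)) (hg' : g ≤ g' + η1 * (T * L)) :
    q * w * V0 - η1 * (6 + 4 * Cc) * (T * L) ≤ g' := by
  have hL : 0 ≤ L := hw0.trans hwL
  have hTL : 0 ≤ T * L := mul_nonneg hT hL
  have hqw0 : 0 ≤ q * w := mul_nonneg hq0 hw0
  have hqwL : q * w ≤ L := by
    calc q * w ≤ 1 * L := mul_le_mul hq1 hwL hw0 zero_le_one
      _ = L := one_mul _
  have a1 : (1 - 3 * η1) * V1 ≤ X := by
    have : (1 + η1) * ((1 - 3 * η1) * V1) ≤ (1 + η1) * X := by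
      refine le_trans ?_ h1
      have : (1 + η1) * (1 - 3 * η1) ≤ (1 - η1) ^ 2 := by nlinarith [sq_nonneg η1]
      calc (1 + η1) * ((1 - 3 * η1) * V1) = ((1 + η1) * (1 - 3 * η1)) * V1 := by ring
        _ ≤ (1 - η1) ^ 2 * V1 := by gcongr
    exact le_of_mul_le_mul_left this (by linarith)
  have a2 : q * w * ((1 - 3 * η1) * V1) ≤ q * w * X := mul_le_mul_of_nonneg_left a1 hqw0
  have a3 : (1 + η1) ^ 2 * g ≤ g + 3 * η1 * g := by nlinarith [mul_nonneg hη0 hg0, mul_nonneg (mul_nonneg hη0 hη0) hg0]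
  have hz0 : 0 ≤ z := hg0.trans hgz
  have a4 : η1 ^ 2 * z ≤ η1 * z := by
    have : η1 ^ 2 ≤ η1 := by nlinarith
    exact mul_le_mul_of_nonneg_right this hz0
  have a5 : q * w * V1 ≤ T * L := by
    calc q * w * V1 ≤ L * T := mul_le_mul hqwL hV1 hV10 hL
      _ = T * L := mul_comm _ _
  have a6 : q * w * V0 ≤ q * w * V1 + 2 * η1 * (T * L) := by
    calc q * w * V0 ≤ q * w * (V1 + 2 * η1 * T) := mul_le_mul_of_nonneg_left hV hqw0
      _ = q * w * V1 + (2 * η1 * T) * (q * w) := by ring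
      _ ≤ q * w * V1 + (2 * η1 * T) * L := by
        have : 0 ≤ 2 * η1 * T := by positivity
        gcongr
      _ = _ := by ring
  have a7 : 3 * η1 * (q * w * V1) ≤ 3 * η1 * (T * L) := mul_le_mul_of_nonneg_left a5 (by positivity)
  have a8 : 3 * η1 * g ≤ 3 * η1 * (Cc * (T * L)) := mul_le_mul_of_nonneg_left (hgz.trans hz) (by positivity)
  have a9 : η1 * z ≤ η1 * (Cc * (T * L)) := mul_le_mul_of_nonneg_left hz hη0
  nlinarith

open Classical in
/-- the isolated simple zeros in `(T, 2 T]` -/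
theorem dyadic {ε0 : ℝ} (hε0 : 0 < ε0) : ∃ d : ℝ, 0 < d ∧ d ≤ 1 ∧ ∀ (K : Set ℂ) (f : ℂ → ℂ), IsCompact K →
    (∀ z ∈ K, 1 / 2 < z.re ∧ z.re < 1) → ∀ e e' η : ℝ, e < e' → 0 < η → ∀ᶠ T : ℝ in atTop,
      (2 - cMTinv - ε0) * (Real.log T / (2 * Real.pi)) * volume.real (SR K f e ∩ Icc T (2 * T)) - η * (T * Real.log T) ≤
        (((ZI d T).filter (fun s => ∀ z ∈ K, ‖riemannZeta (z + s.im * I) - f z‖ < e')).card : ℝ) := by
  have hc1 := cMTinv_gt_one
  have hc2 := cMTinv_lt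
  obtain ⟨d, θ, hd, hd1, hθ, hθ1, hS⟩ := b_SAMPI (min ε0 (1 / 2)) (by positivity)
  refine ⟨d, hd, hd1, fun K f hK hs e e' η hee hη => ?_⟩
  obtain ⟨Cc, hCc, hcr⟩ := NN_crude good_zeta
  set q : ℝ := 2 - cMTinv - min ε0 (1 / 2) with hq
  have hq0 : 0 ≤ q := by
    have := min_le_right ε0 (1 / 2)
    rw [hq]; linarith
  have hq1 : q ≤ 1 := by
    have : 0 < min ε0 (1 / 2) := by positivity
    rw [hq]; linarith
  obtain ⟨η1, hη10, hη12, hη1⟩ : ∃ η1 : ℝ, 0 < η1 ∧ η1 ≤ 1 / 2 ∧ η1 * (6 + 4 * Cc) ≤ η := by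
    refine ⟨min (1 / 2) (η / (6 + 4 * Cc)), by positivity, min_le_left _ _, ?_⟩
    calc _ ≤ η / (6 + 4 * Cc) * (6 + 4 * Cc) := by
          gcongr
          exact min_le_right _ _
      _ = η := by field_simp
  set κ : ℝ := (e' - e) / 4 with hκ
  have hκ0 : 0 < κ := by rw [hκ]; linarith
  obtain ⟨N1, hN1⟩ := bad_real hK hs hκ0 hη10
  obtain ⟨N2', hN2⟩ := bad_zeros hK hs hκ0 hη10
  set N := max N1 N2' with hN
  set ρ : ℝ := κ / (N + 1) with hρ
  have hρ0 : 0 < ρ := by positivity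
  have hNρ : N * ρ ≤ κ := by
    rw [hρ]
    calc (N : ℝ) * (κ / (N + 1)) = κ * (N / (N + 1)) := by ring
      _ ≤ κ * 1 := by
        gcongr
        rw [div_le_one (by positivity)]; linarith
      _ = κ := mul_one _
  obtain ⟨M, b, hb⟩ := approx N (Ps N K f (e + κ) ρ) (Ps_cont _ _ _ _ _) hη10
  have h2T : Tendsto (fun T : ℝ => 2 * T) atTop atTop := tendsto_id.const_mul_atTop (by norm_num)
  have hMθ : ∀ᶠ T : ℝ in atTop, (M : ℝ) ≤ T ^ θ := (tendsto_rpow_atTop hθ).eventually_ge_atTop _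
  have hM40 : ∀ᶠ T : ℝ in atTop, (M : ℝ) ≤ T ^ (1 / 40 : ℝ) :=
    (tendsto_rpow_atTop (by norm_num)).eventually_ge_atTop _
  filter_upwards [hS, h2T.eventually (hN1 N (le_max_left _ _)), hN2 N (le_max_right _ _), hMθ, hM40, mv_rel η1 hη10,
    eventually_ge_atTop 10] with T hS hR hZ hMθ hM40 hmv hT
  have hT0 : 0 < T := by linarith
  have hL1 : 1 ≤ Real.log T := by
    rw [Real.le_log_iff_exp_le (by linarith)]
    have := Real.exp_one_lt_d9
    linarith
  have hpi := Real.pi_gt_three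
  have hw0 : 0 ≤ Real.log T / (2 * Real.pi) := by positivity
  have hwL : Real.log T / (2 * Real.pi) ≤ Real.log T := div_le_self (by linarith) (by linarith)
  obtain ⟨E, hE, hEs, hEv, hE2⟩ := hR
  have hs1 : ∀ z ∈ K, z.re < 1 := fun z hz => (hs z hz).2
  have hs0 : ∀ z ∈ K, 0 < z.re := fun z hz => by linarith [(hs z hz).1]
  set S0 := SR K f e ∩ Icc T (2 * T) with hS0
  have hS0m : MeasurableSet S0 := (SR_closed hs1 f e).measurableSet.inter measurableSet_Icc
  have hfin : ∀ A : Set ℝ, A ⊆ Icc T (2 * T) → volume A ≠ ⊤ := fun A hA =>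
    ne_top_of_le_ne_top (b := volume (Icc T (2 * T))) (by simp) (measure_mono hA)
  have hEfin : volume E ≠ ⊤ := ne_top_of_le_ne_top (b := volume (Icc 0 (2 * T))) isCompact_Icc.measure_lt_top.ne
    (measure_mono hEs)
  have hS1s : S0 \ E ⊆ Icc T (2 * T) := fun t ht => ht.1.2
  have hV1T : volume.real (S0 \ E) ≤ T := by
    calc _ ≤ volume.real (Icc T (2 * T)) := measureReal_mono hS1s (by simp)
      _ = T := by rw [Real.volume_real_Icc_of_le (by linarith)]; ring
  have hV : volume.real S0 ≤ volume.real (S0 \ E) + 2 * η1 * T := by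
    have h1 : volume.real S0 ≤ volume.real (S0 \ E) + volume.real E := by
      calc volume.real S0 ≤ volume.real ((S0 \ E) ∪ E) := by
            refine measureReal_mono ?_ ?_
            · intro t ht
              by_cases h : t ∈ E
              · exact Or.inr h
              · exact Or.inl ⟨ht, h⟩
            · exact (measure_union_lt_top (hfin _ hS1s).lt_top hEfin.lt_top).ne
        _ ≤ _ := measureReal_union_le _ _
    linarith
  have hmono : (2 - cMTinv - ε0) * (Real.log T / (2 * Real.pi)) * volume.real S0 ≤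
      q * (Real.log T / (2 * Real.pi)) * volume.real S0 := by
    refine mul_le_mul_of_nonneg_right (mul_le_mul_of_nonneg_right ?_ hw0) measureReal_nonneg
    rw [hq]
    have := min_le_left ε0 (1 / 2)
    linarith
  -- real heights in `S0 \ E` give vectors in the closed set
  have hCs : ∀ t ∈ S0 \ E, xv N t ∈ Cs N K f (e + κ) := by
    rintro t ⟨⟨h1, h2⟩, h3⟩ z hz
    rw [← DN_eq]
    have h4 := hE2 t ⟨by linarith [h2.1], h2.2⟩ h3 z hz
    have h5 : DN N (z + t * I) - f z = (riemannZeta (z + t * I) - f z) - er N (z + t * I) := by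
      unfold er; ring
    rw [h5]
    exact (norm_sub_le _ _).trans (add_le_add (h1 z hz) h4.le)
  have hTL : 0 ≤ T * Real.log T := by positivity
  have hηTL : η1 * (6 + 4 * Cc) * (T * Real.log T) ≤ η * (T * Real.log T) := mul_le_mul_of_nonneg_right hη1 hTL
  by_cases hne : (Cs N K f (e + κ)).Nonempty
  swap
  · have hemp : S0 \ E = ∅ := by
      rw [Set.eq_empty_iff_forall_notMem]
      intro t ht
      exact hne ⟨_, hCs t ht⟩
    rw [hemp, measureReal_empty, zero_add] at hV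
    have h1 : q * (Real.log T / (2 * Real.pi)) * volume.real S0 ≤ η * (T * Real.log T) := by
      calc q * (Real.log T / (2 * Real.pi)) * volume.real S0
          ≤ 1 * Real.log T * (2 * η1 * T) := by gcongr
        _ = 2 * η1 * (T * Real.log T) := by ring
        _ ≤ η1 * (6 + 4 * Cc) * (T * Real.log T) := by nlinarith [mul_nonneg hη10.le hTL, mul_nonneg (mul_nonneg hη10.le hTL) hCc.le]
        _ ≤ _ := hηTL
    have h2 : (0:ℝ) ≤ (((ZI d T).filter (fun s => ∀ z ∈ K, ‖riemannZeta (z + s.im * I) - f z‖ < e')).card : ℝ) :=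
      Nat.cast_nonneg _
    linarith
  -- the weights
  have hB1 : ∀ t : ℝ, xv N t ∈ Cs N K f (e + κ) → 1 - η1 ≤ ‖dp M b t‖ := by
    intro t ht
    have h1 := hb t
    rw [Ps_one ht, abs_one, abs_le] at h1
    linarith [h1.1]
  have hB2 : ∀ t : ℝ, ‖dp M b t‖ ≤ 1 + η1 := by
    intro t
    have h1 := hb t
    rw [abs_le, abs_of_nonneg (Ps_nonneg _ _ _ _ _ _)] at h1
    linarith [h1.2, Ps_le_one N K f (e + κ) hρ0 (xv N t)]
  have hB3 : ∀ t : ℝ, Ps N K f (e + κ) ρ (xv N t) = 0 → ‖dp M b t‖ ≤ η1 := by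
    intro t ht
    have h1 := hb t
    rw [ht, abs_zero, sub_zero, abs_le] at h1
    exact h1.2
  have hBc : Continuous (dp M b) := (Pool.Agent.Q84.UM.t_DPM.2.2 M b 0).2
  -- the mean value
  have hX : (1 - η1) ^ 2 * volume.real (S0 \ E) ≤ (1 + η1) * (T * N2 M b) := by
    have h1 := hmv M hM40 b
    rw [abs_le] at h1
    have hint : IntegrableOn (fun t => ‖dp M b t‖ ^ 2) (Icc T (2 * T)) :=
      (hBc.norm.pow 2).continuousOn.integrableOn_compact isCompact_Icc
    calc (1 - η1) ^ 2 * volume.real (S0 \ E) = ∫ t in S0 \ E, (1 - η1) ^ 2 := by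
          rw [setIntegral_const, smul_eq_mul, mul_comm]
      _ ≤ ∫ t in S0 \ E, ‖dp M b t‖ ^ 2 := by
          refine setIntegral_mono_on (integrableOn_const (hfin _ hS1s)) (hint.mono_set hS1s) (hS0m.diff hE) ?_
          intro t ht
          have := hB1 t (hCs t ht)
          have h0 : 0 ≤ 1 - η1 := by linarith
          gcongr
      _ ≤ ∫ t in Icc T (2 * T), ‖dp M b t‖ ^ 2 := by
          refine setIntegral_mono_set hint ?_ (LE.le.eventuallyLE hS1s)
          exact Eventually.of_forall fun t => by positivity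
      _ = ∫ t in T..(2 * T), ‖dp M b t‖ ^ 2 := by
          rw [integral_Icc_eq_integral_Ioc, ← intervalIntegral.integral_of_le (by linarith)]
      _ ≤ _ := by linarith [h1.2]
  -- the zeros
  set G := (ZI d T).filter (fun s => Ps N K f (e + κ) ρ (xv N s.im) ≠ 0) with hG
  have hsum : q * (Real.log T / (2 * Real.pi)) * (T * N2 M b) ≤
      (1 + η1) ^ 2 * (G.card : ℝ) + η1 ^ 2 * ((ZI d T).card : ℝ) := by
    refine (hS M hMθ b).trans ?_
    rw [← Finset.sum_filter_add_sum_filter_not (ZI d T) (fun s => Ps N K f (e + κ) ρ (xv N s.im) ≠ 0)]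
    refine add_le_add ?_ ?_
    · calc _ ≤ ∑ s ∈ G, (1 + η1) ^ 2 := by
            refine Finset.sum_le_sum fun s _ => ?_
            have := hB2 s.im
            gcongr
        _ = _ := by rw [Finset.sum_const, nsmul_eq_mul, mul_comm]
    · calc _ ≤ ∑ s ∈ (ZI d T).filter (fun s => ¬ Ps N K f (e + κ) ρ (xv N s.im) ≠ 0), η1 ^ 2 := by
            refine Finset.sum_le_sum fun s hs' => ?_
            rw [Finset.mem_filter, not_not] at hs'
            have := hB3 s.im hs'.2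
            gcongr
        _ = η1 ^ 2 * (((ZI d T).filter (fun s => ¬ Ps N K f (e + κ) ρ (xv N s.im) ≠ 0)).card : ℝ) := by
            rw [Finset.sum_const, nsmul_eq_mul, mul_comm]
        _ ≤ _ := by
            gcongr
            exact Finset.filter_subset _ _
  have hZIs : ZI d T ⊆ Zf riemannZeta T (2 * T) := Finset.filter_subset _ _
  have hZIc : ((ZI d T).card : ℝ) ≤ Cc * (T * Real.log T) := by
    refine le_trans ?_ (hcr T (by linarith) T (2 * T) le_rfl le_rfl)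
    have h1 : (ZI d T).card ≤ (Zf riemannZeta T (2 * T)).card := Finset.card_le_card hZIs
    have h2 : (Zf riemannZeta T (2 * T)).card ≤ NN riemannZeta T (2 * T) := by
      have hNN : NN riemannZeta T (2 * T) = ∑ s ∈ Zf riemannZeta T (2 * T), mult riemannZeta s := by
        unfold NN
        rw [finsum_Zf good_zeta (by linarith)]
      rw [hNN, Finset.card_eq_sum_ones]
      refine Finset.sum_le_sum fun s hs' => ?_
      rw [mem_Zf good_zeta (by linarith)] at hs'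
      exact Loc.mult_pos' good_zeta (by linarith [hs'.2.2.1]) hs'.2.2.2.2
    exact_mod_cast h1.trans h2
  have hGg : (G.card : ℝ) ≤ (((ZI d T).filter (fun s => ∀ z ∈ K, ‖riemannZeta (z + s.im * I) - f z‖ < e')).card : ℝ) +
      η1 * (T * Real.log T) := by
    have h1 : G ⊆ (ZI d T).filter (fun s => ∀ z ∈ K, ‖riemannZeta (z + s.im * I) - f z‖ < e') ∪
        (Zf riemannZeta T (2 * T)).filter (fun s => ∃ z ∈ K, κ ≤ ‖er N (z + s.im * I)‖) := by
      intro s hs'
      rw [hG, Finset.mem_filter] at hs'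
      obtain ⟨g1, g2⟩ := hs'
      have g3 := Ps_ne hs0 hρ0 hne g2
      rw [Finset.mem_union, Finset.mem_filter, Finset.mem_filter]
      by_cases h : ∃ z ∈ K, κ ≤ ‖er N (z + s.im * I)‖
      · exact Or.inr ⟨hZIs g1, h⟩
      · push Not at h
        refine Or.inl ⟨g1, fun z hz => ?_⟩
        have g4 := g3 z hz
        rw [← DN_eq] at g4
        have g5 := h z hz
        have g6 : riemannZeta (z + s.im * I) - f z = (DN N (z + s.im * I) - f z) + er N (z + s.im * I) := by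
          unfold er; ring
        rw [g6]
        calc _ ≤ ‖DN N (z + s.im * I) - f z‖ + ‖er N (z + s.im * I)‖ := norm_add_le _ _
          _ < (e + κ + N * ρ) + κ := add_lt_add_of_le_of_lt g4 g5
          _ ≤ (e + κ + κ) + κ := by linarith
          _ ≤ e' := by rw [hκ]; linarith
    have h2 := (Finset.card_le_card h1).trans (Finset.card_union_le _ _)
    have h3 : (G.card : ℝ) ≤ (((ZI d T).filter (fun s => ∀ z ∈ K, ‖riemannZeta (z + s.im * I) - f z‖ < e')).card : ℝ) +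
        (((Zf riemannZeta T (2 * T)).filter (fun s => ∃ z ∈ K, κ ≤ ‖er N (z + s.im * I)‖)).card : ℝ) := by
      rw [← Nat.cast_add]
      exact Nat.cast_le.mpr h2
    exact h3.trans (add_le_add le_rfl hZ)
  have hGz : (G.card : ℝ) ≤ ((ZI d T).card : ℝ) := by
    have : G ⊆ ZI d T := by rw [hG]; exact Finset.filter_subset _ _
    exact Nat.cast_le.mpr (Finset.card_le_card this)
  have hg0 : (0:ℝ) ≤ (G.card : ℝ) := Nat.cast_nonneg _
  have hv0 : 0 ≤ volume.real (S0 \ E) := measureReal_nonneg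
  clear_value G
  generalize (((ZI d T).filter (fun s => ∀ z ∈ K, ‖riemannZeta (z + s.im * I) - f z‖ < e')).card : ℝ) = g' at hGg ⊢
  generalize ((ZI d T).card : ℝ) = zz at hGz hZIc hsum
  generalize (G.card : ℝ) = g at hGz hg0 hGg hsum
  generalize T * N2 M b = XX at hX hsum
  generalize volume.real (S0 \ E) = V1 at hV1T hV hX hv0
  generalize volume.real S0 = V0 at hV hmono ⊢
  generalize Real.log T / (2 * Real.pi) = w at hw0 hwL hsum hmono ⊢
  have hfinal := alg hq0 hq1 hw0 hwL hT0.le hη10.le hη12 hv0 hV1T hV hX hsum hg0 hGz hZIc hGg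
  linarith

end

end Pool.Agent.V8H36.UZ
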