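import Pool.Agent.H370R2.Count
import Pool.Agent.H370R2.Dyadic

set_option autoImplicit false

/-! Dyadic summation for lower bounds with a varying main term. -/

namespace Pool.Agent.V8H36.UZ

open Complex Filter Topology MeasureTheory Set H370

noncomputable section

lemma NN_zero_add {A X : ℝ} (hA : 1 ≤ A) (hAX : A ≤ X) : NN riemannZeta 0 X = NN riemannZeta 0 A + NN riemannZeta A X := by
  unfold NN
  rw [← finsum_mem_union]
  · have hset : zset riemannZeta 0 X = zset riemannZeta 0 A ∪ zset riemannZeta A X := by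
      ext s
      simp only [zset, Set.mem_ofPred_eq, Set.mem_union]
      constructor
      · rintro ⟨a1, a2, a3, a4, a5⟩
        rcases le_or_gt s.im A with h1 | h1
        · exact Or.inl ⟨a1, a2, a3, h1, a5⟩
        · exact Or.inr ⟨a1, a2, h1, a4, a5⟩
      · rintro (⟨a1, a2, a3, a4, a5⟩ | ⟨a1, a2, a3, a4, a5⟩)
        · exact ⟨a1, a2, a3, a4.trans hAX, a5⟩
        · exact ⟨a1, a2, by linarith, a4, a5⟩
    rw [hset]
  · rw [Set.disjoint_left]
    rintro s ⟨a1, a2, a3, a4, a5⟩ ⟨b1, b2, b3, b4, b5⟩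
    linarith
  · exact zeta_zeros_finite A
  · exact zset_finite good_zeta A X hA

/-- the number of the zeros, from above -/
theorem N_upper : ∃ C X1 : ℝ, 0 < C ∧ 10 ≤ X1 ∧ ∀ X : ℝ, X1 ≤ X →
    (NN riemannZeta 0 X : ℝ) ≤ X * Real.log X / (2 * Real.pi) + C * X := by
  obtain ⟨C1, T1, hC1, hT1, hnn⟩ := nn_asymp good_zeta
  have hpi := Real.pi_pos
  have key : ∀ n : ℕ, ∀ X : ℝ, T1 ≤ X → X ≤ 2 ^ n * T1 →
      (NN riemannZeta 0 X : ℝ) ≤ NN riemannZeta 0 (2 * T1) + (X * Real.log X / (2 * Real.pi) + C1 * X) := by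
    intro n
    induction n with
    | zero =>
      intro X h1 h2
      rw [pow_zero, one_mul] at h2
      have h3 : NN riemannZeta 0 X ≤ NN riemannZeta 0 (2 * T1) := by
        rw [NN_zero_add (A := X) (X := 2 * T1) (by linarith) (by linarith)]
        exact Nat.le_add_right _ _
      have h4 : (NN riemannZeta 0 X : ℝ) ≤ NN riemannZeta 0 (2 * T1) := by exact_mod_cast h3
      have h5 : 0 ≤ Real.log X := Real.log_nonneg (by linarith)
      have h6 : 0 ≤ X * Real.log X / (2 * Real.pi) + C1 * X := by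
        have : 0 ≤ X := by linarith
        positivity
      linarith
    | succ n ih =>
      intro X h1 h2
      have h5 : 0 ≤ Real.log X := Real.log_nonneg (by linarith)
      have h6 : 0 ≤ X * Real.log X / (2 * Real.pi) + C1 * X := by
        have : 0 ≤ X := by linarith
        positivity
      rcases le_total X (2 * T1) with h | h
      · have h3 : NN riemannZeta 0 X ≤ NN riemannZeta 0 (2 * T1) := by
          rw [NN_zero_add (A := X) (X := 2 * T1) (by linarith) h]
          exact Nat.le_add_right _ _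
        have h4 : (NN riemannZeta 0 X : ℝ) ≤ NN riemannZeta 0 (2 * T1) := by exact_mod_cast h3
        linarith
      · have h3 := ih (X / 2) (by linarith) (by rw [pow_succ] at h2; linarith)
        have h4 := hnn (X / 2) (by linarith) (X / 2) (2 * (X / 2)) le_rfl (by linarith) (by linarith) le_rfl
        rw [show 2 * (X / 2) = X by ring] at h4
        rw [abs_le] at h4
        rw [NN_zero_add (A := X / 2) (X := X) (by linarith) (by linarith)]
        push_cast
        have h7 : Real.log (X / 2) ≤ Real.log X := Real.log_le_log (by linarith) (by linarith)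
        have h8 : X / 2 * Real.log (X / 2) / (2 * Real.pi) ≤ X / 2 * Real.log X / (2 * Real.pi) := by
          have : 0 ≤ X / 2 := by linarith
          gcongr
        have h9 : X / 2 * Real.log X / (2 * Real.pi) + X / 2 * Real.log X / (2 * Real.pi) =
          X * Real.log X / (2 * Real.pi) := by ring
        linarith [h4.2]
  refine ⟨C1 + NN riemannZeta 0 (2 * T1), T1, by positivity, hT1, fun X hX => ?_⟩
  obtain ⟨n, hn⟩ := pow_unbounded_of_one_lt X (show (1:ℝ) < 2 by norm_num)
  have h1 := key n X hX (by nlinarith [pow_pos (show (0:ℝ) < 2 by norm_num) n])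
  have h2 : (NN riemannZeta 0 (2 * T1) : ℝ) ≤ NN riemannZeta 0 (2 * T1) * X := by
    have h3 : (0:ℝ) ≤ NN riemannZeta 0 (2 * T1) := Nat.cast_nonneg _
    nlinarith
  rw [add_mul]
  linarith

/-- telescoping -/
theorem tele {F U A V : ℝ → ℝ} {T0 q η : ℝ} (hT0 : 1 ≤ T0) (hq : 0 ≤ q) (hη : 0 ≤ η)
    (hF : ∀ T, T0 ≤ T → F T + A T ≤ F (2 * T)) (hU : ∀ T, T0 ≤ T → U (2 * T) ≤ U T + V T) (hV : ∀ T, 0 ≤ V T)
    (hA : ∀ T, T0 ≤ T → q * (Real.log T / (2 * Real.pi)) * V T - η * (T * Real.log T) ≤ A T) (hF0 : ∀ T, 0 ≤ F T) :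
    ∀ J : ℕ, ∀ X : ℝ, 2 ^ J * T0 ≤ X →
      q * (Real.log (X / 2 ^ J) / (2 * Real.pi)) * (U X - U (X / 2 ^ J)) - η * (X * Real.log X) ≤ F X := by
  have hpi := Real.pi_pos
  intro J
  induction J with
  | zero =>
    intro X hX
    rw [pow_zero, one_mul] at hX
    rw [pow_zero, div_one, sub_self, mul_zero, zero_sub]
    have h1 : 0 ≤ Real.log X := Real.log_nonneg (by linarith)
    have h2 : 0 ≤ η * (X * Real.log X) := by
      have : 0 ≤ X := by linarith
      positivity
    linarith [hF0 X]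
  | succ J ih =>
    intro X hX
    have h2J : (1:ℝ) ≤ 2 ^ J := one_le_pow₀ (by norm_num)
    have h2J0 : (0:ℝ) < 2 ^ J := by positivity
    have hX' : 2 ^ J * T0 ≤ X / 2 := by rw [pow_succ] at hX; linarith
    have hT0X : T0 ≤ X / 2 := le_trans (by nlinarith) hX'
    have h1 := ih (X / 2) hX'
    rw [div_div, show (2:ℝ) * 2 ^ J = 2 ^ (J + 1) by rw [pow_succ]; ring] at h1
    have h2 := hF (X / 2) hT0X
    rw [show 2 * (X / 2) = X by ring] at h2
    have h3 := hU (X / 2) hT0X
    rw [show 2 * (X / 2) = X by ring] at h3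
    have h4 := hA (X / 2) hT0X
    have h5 : Real.log (X / 2 ^ (J + 1)) ≤ Real.log (X / 2) := by
      apply Real.log_le_log (by have : 0 < X := by linarith
                                positivity)
      refine div_le_div_of_nonneg_left (by linarith) (by norm_num) ?_
      rw [pow_succ]; linarith
    have h5' : 0 ≤ Real.log (X / 2 ^ (J + 1)) := by
      apply Real.log_nonneg
      rw [le_div_iff₀ (by positivity)]
      nlinarith
    have h6 : Real.log (X / 2) ≤ Real.log X := Real.log_le_log (by linarith) (by linarith)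
    have h7 : q * (Real.log (X / 2 ^ (J + 1)) / (2 * Real.pi)) * V (X / 2) ≤
        q * (Real.log (X / 2) / (2 * Real.pi)) * V (X / 2) := by
      have := hV (X / 2)
      gcongr
    have h8 : η * (X / 2 * Real.log (X / 2)) ≤ η * (X / 2 * Real.log X) := by
      have : 0 ≤ X / 2 := by linarith
      gcongr
    have h9 : q * (Real.log (X / 2 ^ (J + 1)) / (2 * Real.pi)) * (U X - U (X / 2 ^ (J + 1))) ≤
        q * (Real.log (X / 2 ^ (J + 1)) / (2 * Real.pi)) * (U (X / 2) - U (X / 2 ^ (J + 1))) +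
        q * (Real.log (X / 2 ^ (J + 1)) / (2 * Real.pi)) * V (X / 2) := by
      rw [← mul_add]
      refine mul_le_mul_of_nonneg_left (by linarith) (by positivity)
    have h10 : η * (X / 2 * Real.log X) + η * (X / 2 * Real.log X) = η * (X * Real.log X) := by ring
    linarith

/-- the final form of the summation -/
theorem final {F U A V : ℝ → ℝ} {T0 q η : ℝ} (hT0 : 1 ≤ T0) (hq : 0 ≤ q) (hq1 : q ≤ 1) (hη : 0 < η)
    (hF : ∀ T, T0 ≤ T → F T + A T ≤ F (2 * T)) (hU : ∀ T, T0 ≤ T → U (2 * T) ≤ U T + V T) (hV : ∀ T, 0 ≤ V T)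
    (hA : ∀ T, T0 ≤ T → q * (Real.log T / (2 * Real.pi)) * V T - η / (8 * Real.pi) * (T * Real.log T) ≤ A T)
    (hF0 : ∀ T, 0 ≤ F T) (hU0 : ∀ T, 0 ≤ T → 0 ≤ U T ∧ U T ≤ T) :
    ∀ᶠ X : ℝ in atTop, (q * (U X / X) - η) * (NN riemannZeta 0 X : ℝ) ≤ F X := by
  have hpi := Real.pi_pos
  obtain ⟨C, X1, hC, hX1, hN⟩ := N_upper
  obtain ⟨J, hJ⟩ := exists_pow_lt_of_lt_one (show 0 < η / 4 by positivity) (show (1 / 2 : ℝ) < 1 by norm_num)
  have htele := tele hT0 hq (show 0 ≤ η / (8 * Real.pi) by positivity) hF hU hV hA hF0 J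
  filter_upwards [eventually_ge_atTop (2 ^ J * T0), eventually_ge_atTop X1,
    Real.tendsto_log_atTop.eventually_ge_atTop (J * Real.log 2 * (4 / η) + C * (2 * Real.pi) * (4 / η))] with X hX hXX hL
  have hJ2 : (1:ℝ) ≤ 2 ^ J := one_le_pow₀ (by norm_num)
  have hJ0 : (0:ℝ) < 2 ^ J := by positivity
  have hX0 : 0 < X := by linarith
  have hXJ : 1 ≤ X / 2 ^ J := by
    rw [le_div_iff₀ hJ0]
    nlinarith
  have h1 := htele X hX
  have h2 := hN X hXX
  obtain ⟨u1, u2⟩ := hU0 X hX0.le
  obtain ⟨u3, u4⟩ := hU0 (X / 2 ^ J) (by positivity)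
  set L := Real.log X with hLd
  have hlog2 : 0 ≤ Real.log 2 := Real.log_nonneg (by norm_num)
  have hL1 : (J : ℝ) * Real.log 2 ≤ η / 4 * L := by
    have h3 : (J : ℝ) * Real.log 2 * (4 / η) ≤ L := by
      have : 0 ≤ C * (2 * Real.pi) * (4 / η) := by positivity
      linarith
    calc (J : ℝ) * Real.log 2 = η / 4 * ((J : ℝ) * Real.log 2 * (4 / η)) := by field_simp
      _ ≤ η / 4 * L := by gcongr
  have hL2 : C * (2 * Real.pi) ≤ η / 4 * L := by
    have h3 : C * (2 * Real.pi) * (4 / η) ≤ L := by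
      have : 0 ≤ J * Real.log 2 * (4 / η) := by positivity
      linarith
    calc C * (2 * Real.pi) = η / 4 * (C * (2 * Real.pi) * (4 / η)) := by field_simp
      _ ≤ η / 4 * L := by gcongr
  have hL0 : 0 ≤ L := Real.log_nonneg (by linarith)
  have hlogJ : Real.log (X / 2 ^ J) = L - J * Real.log 2 := by
    rw [Real.log_div hX0.ne' hJ0.ne', Real.log_pow]
  rw [hlogJ] at h1
  -- the lower bound for `F`
  have hJX : X / 2 ^ J ≤ η / 4 * X := by
    have : (1 / 2 : ℝ) ^ J = 1 / 2 ^ J := by rw [div_pow, one_pow]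
    rw [this] at hJ
    calc X / 2 ^ J = (1 / 2 ^ J) * X := by ring
      _ ≤ η / 4 * X := by gcongr
  set W := X * L / (2 * Real.pi) with hW
  have hW0 : 0 ≤ W := by positivity
  have h3 : q * (L / (2 * Real.pi)) * U X - 3 / 4 * η * W ≤ F X := by
    have e1 : q * ((L - J * Real.log 2) / (2 * Real.pi)) * (U X - U (X / 2 ^ J)) ≥
        q * (L / (2 * Real.pi)) * U X - q * (η / 4 * W) - q * (η / 4 * W) := by
      have f1 : q * ((L - J * Real.log 2) / (2 * Real.pi)) * (U X - U (X / 2 ^ J)) =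
          q * (L / (2 * Real.pi)) * U X - q * (L / (2 * Real.pi) * U (X / 2 ^ J)) -
          q * (J * Real.log 2 / (2 * Real.pi) * (U X - U (X / 2 ^ J))) := by ring
      have f2 : L / (2 * Real.pi) * U (X / 2 ^ J) ≤ η / 4 * W := by
        calc L / (2 * Real.pi) * U (X / 2 ^ J) ≤ L / (2 * Real.pi) * (η / 4 * X) := by
              have := u4.trans hJX
              gcongr
          _ = η / 4 * W := by rw [hW]; ring
      have f3 : J * Real.log 2 / (2 * Real.pi) * (U X - U (X / 2 ^ J)) ≤ η / 4 * W := by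
        calc J * Real.log 2 / (2 * Real.pi) * (U X - U (X / 2 ^ J)) ≤ (η / 4 * L) / (2 * Real.pi) * X := by
              have g1 : U X - U (X / 2 ^ J) ≤ X := by linarith
              have g2 : 0 ≤ J * Real.log 2 / (2 * Real.pi) := by positivity
              calc _ ≤ J * Real.log 2 / (2 * Real.pi) * X := mul_le_mul_of_nonneg_left g1 g2
                _ ≤ _ := by gcongr
          _ = η / 4 * W := by rw [hW]; ring
      have f4 := mul_le_mul_of_nonneg_left f2 hq
      have f5 := mul_le_mul_of_nonneg_left f3 hq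
      rw [f1]
      linarith
    have e2 : q * (η / 4 * W) ≤ η / 4 * W := by
      have : 0 ≤ η / 4 * W := by positivity
      nlinarith
    have e3 : η / (8 * Real.pi) * (X * L) = η / 4 * W := by rw [hW]; field_simp; ring
    linarith
  -- the upper bound for the left side
  by_cases hneg : q * (U X / X) - η < 0
  · exact (mul_nonpos_of_nonpos_of_nonneg hneg.le (Nat.cast_nonneg _)).trans (hF0 X)
  push Not at hneg
  have h4 : (NN riemannZeta 0 X : ℝ) ≤ (1 + η / 4) * W := by
    refine h2.trans ?_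
    have : C * X ≤ η / 4 * W := by
      calc C * X = (C * (2 * Real.pi)) * (X / (2 * Real.pi)) := by field_simp
        _ ≤ (η / 4 * L) * (X / (2 * Real.pi)) := by gcongr
        _ = η / 4 * W := by rw [hW]; ring
    linarith
  have h5 : q * (U X / X) * W = q * (L / (2 * Real.pi)) * U X := by rw [hW]; field_simp
  have h6 : q * (U X / X) ≤ 1 := by
    have : U X / X ≤ 1 := by rw [div_le_one hX0]; exact u2
    have h0 : 0 ≤ U X / X := by positivity
    nlinarith
  calc (q * (U X / X) - η) * (NN riemannZeta 0 X : ℝ) ≤ (q * (U X / X) - η) * ((1 + η / 4) * W) :=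
        mul_le_mul_of_nonneg_left h4 hneg
    _ ≤ q * (L / (2 * Real.pi)) * U X - 3 / 4 * η * W := by
        rw [← h5]
        have g1 : η / 4 * (q * (U X / X) * W) ≤ η / 4 * W := by
          have : q * (U X / X) * W ≤ 1 * W := mul_le_mul_of_nonneg_right h6 hW0
          rw [one_mul] at this
          gcongr
        have g2 : 0 ≤ η * (η / 4) * W := by positivity
        nlinarith
    _ ≤ F X := h3

end

end Pool.Agent.V8H36.UZ
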