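import Pool.Agent.Q84.UM.DPM

set_option autoImplicit false

/-! Continuous functions of finitely many powers `n ^ (-it)` are approximated by the moduli of Dirichlet polynomials. -/

namespace Pool.Agent.V8H36.UZ

open Complex Pool.Agent.Q97.UM

noncomputable section

/-- `n ^ (-it)` -/
def nt (n : ℕ) (t : ℝ) : ℂ := (n : ℂ) ^ (-(t * I : ℂ))

lemma nt_norm {n : ℕ} (hn : 1 ≤ n) (t : ℝ) : ‖nt n t‖ = 1 := by
  unfold nt
  rw [Complex.norm_natCast_cpow_of_pos (by omega)]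
  simp

lemma nt_one (t : ℝ) : nt 1 t = 1 := by simp [nt]

lemma nt_mul (m n : ℕ) (t : ℝ) : nt (m * n) t = nt m t * nt n t := by
  unfold nt
  rw [Nat.cast_mul, Complex.natCast_mul_natCast_cpow]

lemma nt_cont (n : ℕ) (hn : 1 ≤ n) : Continuous (nt n) := by
  unfold nt
  refine Continuous.const_cpow (by fun_prop) (Or.inl ?_)
  exact_mod_cast (by omega : n ≠ 0)

/-- a finite combination of quotients of powers `n ^ (-it)` -/
def IsDP (φ : ℝ → ℂ) : Prop := ∃ (M N : ℕ) (b : ℕ → ℂ), 1 ≤ M ∧ (∀ n, N < n → b n = 0) ∧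
  ∀ t : ℝ, φ t * nt M t = dp N b t

lemma dp_pad {N N' : ℕ} (h : N ≤ N') (b : ℕ → ℂ) (hb : ∀ n, N < n → b n = 0) (t : ℝ) :
    dp N b t = dp N' b t := by
  unfold dp
  refine Finset.sum_subset (Finset.Icc_subset_Icc le_rfl h) ?_
  intro n hn1 hn2
  rw [Finset.mem_Icc] at hn1 hn2
  rw [hb n (by omega), zero_mul]

lemma dp_trunc (N : ℕ) (b : ℕ → ℂ) (t : ℝ) : dp N (fun n => if n ≤ N then b n else 0) t = dp N b t := by
  unfold dp
  refine Finset.sum_congr rfl fun n hn => ?_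
  rw [Finset.mem_Icc] at hn
  simp only [if_pos hn.2]

lemma dp_add (N : ℕ) (b c : ℕ → ℂ) (t : ℝ) : dp N b t + dp N c t = dp N (fun n => b n + c n) t := by
  unfold dp
  rw [← Finset.sum_add_distrib]
  refine Finset.sum_congr rfl fun n hn => ?_
  ring

/-- one term -/
lemma dp_single {M : ℕ} (hM : 1 ≤ M) (t : ℝ) :
    dp M (fun n => if n = M then (M : ℂ) ^ (1 / 2 : ℂ) else 0) t = nt M t := by
  unfold dp
  rw [Finset.sum_eq_single M]
  · simp only [if_true]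
    unfold nt
    have h0 : (M : ℂ) ≠ 0 := by exact_mod_cast (by omega : M ≠ 0)
    rw [← Complex.cpow_add _ _ h0]
    congr 1
    ring
  · intro n _ h
    simp only [if_neg h, zero_mul]
  · intro h
    exact absurd (Finset.mem_Icc.mpr ⟨hM, le_rfl⟩) h

lemma isDP_of {φ : ℝ → ℂ} {M N : ℕ} {b : ℕ → ℂ} (hM : 1 ≤ M) (h : ∀ t : ℝ, φ t * nt M t = dp N b t) : IsDP φ :=
  ⟨M, N, fun n => if n ≤ N then b n else 0, hM, fun n hn => if_neg (by omega), fun t => by rw [h t, dp_trunc]⟩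

lemma isDP_const (c : ℂ) : IsDP fun _ => c := by
  refine isDP_of (M := 1) (N := 1) (b := fun _ => c) le_rfl fun t => ?_
  rw [nt_one]
  simp [dp]

lemma isDP_nt {n : ℕ} (hn : 1 ≤ n) : IsDP (nt n) := by
  refine isDP_of (M := 1) le_rfl (N := n) (b := fun k => if k = n then (n : ℂ) ^ (1 / 2 : ℂ) else 0) fun t => ?_
  rw [nt_one, mul_one, dp_single hn]

lemma isDP_conj {n : ℕ} (hn : 1 ≤ n) : IsDP (fun t => (starRingEnd ℂ) (nt n t)) := by
  refine isDP_of (M := n) hn (N := 1) (b := fun _ => 1) fun t => ?_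
  rw [← Complex.normSq_eq_conj_mul_self, Complex.normSq_eq_norm_sq, nt_norm hn]
  simp [dp]

lemma isDP_mul {φ ψ : ℝ → ℂ} (h1 : IsDP φ) (h2 : IsDP ψ) : IsDP (fun t => φ t * ψ t) := by
  obtain ⟨M, N, b, hM, hb, h1⟩ := h1
  obtain ⟨M', N', b', hM', hb', h2⟩ := h2
  refine isDP_of (M := M * M') (N := N * N') (b := cv b b') (Nat.mul_pos hM hM') fun t => ?_
  rw [nt_mul, ← Pool.Agent.Q84.UM.t_DPM.1 N N' b b' t hb hb', ← h1, ← h2]
  ring

lemma isDP_add {φ ψ : ℝ → ℂ} (h1 : IsDP φ) (h2 : IsDP ψ) : IsDP (fun t => φ t + ψ t) := by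
  obtain ⟨M, N, b, hM, hb, h1⟩ := h1
  obtain ⟨M', N', b', hM', hb', h2⟩ := h2
  obtain ⟨N1, c1, k1, k1'⟩ : ∃ (N1 : ℕ) (c1 : ℕ → ℂ), (∀ n, N1 < n → c1 n = 0) ∧
      ∀ t, φ t * nt (M * M') t = dp N1 c1 t := by
    refine ⟨N * M', fun n => if n ≤ N * M' then cv b (fun n => if n = M' then (M' : ℂ) ^ (1 / 2 : ℂ) else 0) n else 0,
      fun n hn => if_neg (by omega), fun t => ?_⟩
    rw [dp_trunc, ← Pool.Agent.Q84.UM.t_DPM.1 N M' _ _ t hb (fun n hn => if_neg (by omega)), dp_single hM', ← h1, nt_mul]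
    ring
  obtain ⟨N2, c2, k2, k2'⟩ : ∃ (N1 : ℕ) (c1 : ℕ → ℂ), (∀ n, N1 < n → c1 n = 0) ∧
      ∀ t, ψ t * nt (M * M') t = dp N1 c1 t := by
    refine ⟨N' * M, fun n => if n ≤ N' * M then cv b' (fun n => if n = M then (M : ℂ) ^ (1 / 2 : ℂ) else 0) n else 0,
      fun n hn => if_neg (by omega), fun t => ?_⟩
    rw [dp_trunc, ← Pool.Agent.Q84.UM.t_DPM.1 N' M _ _ t hb' (fun n hn => if_neg (by omega)), dp_single hM, ← h2, nt_mul]
    ring
  refine isDP_of (M := M * M') (N := max N1 N2) (b := fun n => c1 n + c2 n) (Nat.mul_pos hM hM') fun t => ?_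
  rw [← dp_add, ← dp_pad (le_max_left N1 N2) c1 k1, ← dp_pad (le_max_right N1 N2) c2 k2, ← k1', ← k2']
  ring

/-- the compact set of the vectors -/
def Xs (N : ℕ) : Set (Fin N → ℂ) := Set.pi Set.univ fun _ => Metric.closedBall (0 : ℂ) 1

instance (N : ℕ) : CompactSpace (Xs N) :=
  isCompact_iff_compactSpace.mp (isCompact_univ_pi fun _ => isCompact_closedBall _ _)

/-- the vector `(n ^ (-it))`, `1 ≤ n ≤ N` -/
def xv (N : ℕ) (t : ℝ) : Fin N → ℂ := fun i => nt (i + 1) t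

lemma xv_mem (N : ℕ) (t : ℝ) : xv N t ∈ Xs N := by
  intro i _
  rw [Metric.mem_closedBall, dist_zero_right]
  exact (nt_norm (by omega) t).le

/-- the coordinates -/
def co (N : ℕ) (i : Fin N) : C(Xs N, ℂ) := ⟨fun v => v.1 i, (continuous_apply i).comp continuous_subtype_val⟩

/-- the algebra generated by the coordinates -/
def AL (N : ℕ) : StarSubalgebra ℂ C(Xs N, ℂ) := StarAlgebra.adjoin ℂ (Set.range (co N))

lemma AL_isDP {N : ℕ} {f : C(Xs N, ℂ)} (hf : f ∈ AL N) : IsDP (fun t => f ⟨xv N t, xv_mem N t⟩) := by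
  have hf' : f ∈ Algebra.adjoin ℂ (Set.range (co N) ∪ star (Set.range (co N))) := by
    rw [← StarAlgebra.adjoin_toSubalgebra]
    exact hf
  clear hf
  induction hf' using Algebra.adjoin_induction with
  | mem f h =>
    rcases h with h | h
    · obtain ⟨i, rfl⟩ := h
      exact isDP_nt (n := i + 1) (by omega)
    · obtain ⟨i, hi⟩ := Set.mem_star.mp h
      have : f = star (co N i) := by rw [hi, star_star]
      rw [this]
      exact isDP_conj (n := i + 1) (by omega)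
  | algebraMap r => exact isDP_const r
  | add f g _ _ h1 h2 => exact isDP_add h1 h2
  | mul f g _ _ h1 h2 => exact isDP_mul h1 h2

lemma AL_sep (N : ℕ) : (AL N).toSubalgebra.SeparatesPoints := by
  intro x y hxy
  obtain ⟨i, hi⟩ : ∃ i, x.1 i ≠ y.1 i := by
    by_contra h
    push Not at h
    exact hxy (Subtype.ext (funext h))
  exact ⟨co N i, ⟨co N i, StarAlgebra.subset_adjoin ℂ _ ⟨i, rfl⟩, rfl⟩, hi⟩

/-- continuous functions of the vector `(n ^ (-it))` are approximated by Dirichlet polynomials -/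
theorem approx (N : ℕ) (Ψ : (Fin N → ℂ) → ℝ) (hΨ : Continuous Ψ) {η : ℝ} (hη : 0 < η) :
    ∃ (M : ℕ) (b : ℕ → ℂ), ∀ t : ℝ, abs (‖dp M b t‖ - abs (Ψ (xv N t))) ≤ η := by
  let F : C(Xs N, ℂ) := ⟨fun v => (Ψ v.1 : ℂ), by fun_prop⟩
  have h1 : F ∈ (AL N).topologicalClosure := by
    rw [ContinuousMap.starSubalgebra_topologicalClosure_eq_top_of_separatesPoints (AL N) (AL_sep N)]
    trivial
  have h2 : F ∈ closure ((AL N : StarSubalgebra ℂ C(Xs N, ℂ)) : Set C(Xs N, ℂ)) := h1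
  obtain ⟨g, hg, hd⟩ := Metric.mem_closure_iff.mp h2 η hη
  obtain ⟨M, N', b, hM, -, hb⟩ := AL_isDP hg
  refine ⟨N', b, fun t => ?_⟩
  rw [← hb t, norm_mul, nt_norm hM, mul_one]
  have h3 := (ContinuousMap.dist_apply_le_dist (f := F) (g := g) ⟨xv N t, xv_mem N t⟩).trans hd.le
  have h4 : abs (Ψ (xv N t)) = ‖F ⟨xv N t, xv_mem N t⟩‖ := by
    show |Ψ (xv N t)| = ‖((Ψ (xv N t) : ℝ) : ℂ)‖
    rw [Complex.norm_real, Real.norm_eq_abs]
  rw [h4]
  rw [dist_comm, dist_eq_norm] at h3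
  exact (abs_norm_sub_norm_le _ _).trans h3

end

end Pool.Agent.V8H36.UZ
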